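import Pool.Agent.H39.Newt5.Stmts
import Pool.Agent.H85.Newt.REC

/-! # Project NEWTON5: module RCT, the recurrence with domination -/

set_option autoImplicit false

namespace Pool.Newt5

open MvPolynomial Pool.Agent.H39.MonoR Pool.Agent.H75.Mono Pool.Newt Pool.Newt2 Pool.Newt3
open Pool.Newt4 (Nfc)

namespace RCT33

theorem functional (hPhi : SPhi) (I : Type) [Fintype I] (V : Finset I) (E : Finset (I → ℤ))
    (hE : (0 : I → ℤ) ∉ E) :
    ∃ φ : I → ℕ, (∀ i, 0 < φ i) ∧ (∀ κ ∈ E, ∑ i, (φ i : ℤ) * κ i ≠ 0) ∧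
      ∀ κ ∈ E, (∀ j, j ∉ V → 0 ≤ κ j) → (∃ j, j ∉ V ∧ κ j ≠ 0) → 0 < ∑ i, (φ i : ℤ) * κ i := by
  classical
  obtain ⟨φ, -, φ1, φE⟩ := hPhi I ∅ E (by
    intro κ hκ
    by_contra hno
    push Not at hno
    refine hE ?_
    have : κ = 0 := by
      funext i
      exact hno i (Finset.notMem_empty i)
    rw [← this]
    exact hκ)
  set M : ℕ := 1 + ∑ κ ∈ E, (∑ i, (φ i : ℤ) * κ i).natAbs with hM
  have hMlt : ∀ κ ∈ E, |∑ i, (φ i : ℤ) * κ i| < (M : ℤ) := by
    intro κ hκ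
    have h1 : (∑ i, (φ i : ℤ) * κ i).natAbs ≤ ∑ κ ∈ E, (∑ i, (φ i : ℤ) * κ i).natAbs :=
      Finset.single_le_sum (f := fun κ : I → ℤ => (∑ i, (φ i : ℤ) * κ i).natAbs)
        (fun _ _ => Nat.zero_le _) hκ
    rw [Int.abs_eq_natAbs]
    omega
  have hsum : ∀ κ : I → ℤ, ∑ i, ((φ i + (if i ∈ V then 0 else M) : ℕ) : ℤ) * κ i =
      (∑ i, (φ i : ℤ) * κ i) + (M : ℤ) * ∑ i ∈ Vᶜ, κ i := by
    intro κ
    have h1 : ∑ i ∈ Vᶜ, κ i = ∑ i, if i ∈ V then 0 else κ i := by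
      rw [← Finset.sum_subset (Finset.subset_univ Vᶜ) (f := fun i => if i ∈ V then 0 else κ i) (by
        intro i _ hi
        have h2 : i ∈ V := by
          by_contra h
          exact hi (Finset.mem_compl.2 h)
        exact if_pos h2)]
      exact Finset.sum_congr rfl fun i hi => (if_neg (Finset.mem_compl.1 hi)).symm
    rw [h1, Finset.mul_sum, ← Finset.sum_add_distrib]
    refine Finset.sum_congr rfl fun i _ => ?_
    split_ifs
    · push_cast
      ring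
    · push_cast
      ring
  refine ⟨fun i => φ i + (if i ∈ V then 0 else M), fun i => Nat.add_pos_left
    (φ1 i (Finset.notMem_empty i)) _, fun κ hκ => ?_, fun κ hκ h1 h2 => ?_⟩
  · rw [hsum]
    have h3 := hMlt κ hκ
    have h4 := φE κ hκ
    rcases eq_or_ne (∑ i ∈ Vᶜ, κ i) 0 with h5 | h5
    · rw [h5, mul_zero, add_zero]
      exact h4
    · intro h6
      have h7 : (M : ℤ) ≤ |(M : ℤ) * ∑ i ∈ Vᶜ, κ i| := by
        rw [abs_mul]
        have h8 : (1 : ℤ) ≤ |∑ i ∈ Vᶜ, κ i| := Int.one_le_abs h5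
        have h9 : |(M : ℤ)| = M := abs_of_nonneg (Int.natCast_nonneg M)
        rw [h9]
        nlinarith [Int.natCast_nonneg M]
      have h8 : (M : ℤ) * ∑ i ∈ Vᶜ, κ i = -∑ i, (φ i : ℤ) * κ i := by linarith
      rw [h8, abs_neg] at h7
      omega
  · rw [hsum]
    obtain ⟨j, hj, hj0⟩ := h2
    have h3 := hMlt κ hκ
    have h4 : (1 : ℤ) ≤ ∑ i ∈ Vᶜ, κ i := by
      have h5 : κ j ≤ ∑ i ∈ Vᶜ, κ i := Finset.single_le_sum
        (f := κ) (fun i hi => h1 i (Finset.mem_compl.1 hi)) (Finset.mem_compl.2 hj)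
      have := h1 j hj
      omega
    have h5 := neg_abs_le (∑ i, (φ i : ℤ) * κ i)
    nlinarith [Int.natCast_nonneg M]

end RCT33

/-- RCT -/
theorem sRct (hPhi : SPhi) : SRct := by
  classical
  intro σ I _ _ a V α K hR
  obtain ⟨q, H, Dd, Q, hq, hDd, hid⟩ := hR
  obtain ⟨H', SH, hSH, hH'⟩ := REC_coeff H
  choose Q' SQ hSQ hQ' using fun δ => REC_coeff (Q δ)
  -- the functional
  obtain ⟨φ, φ1, φE, φV⟩ := RCT33.functional hPhi I V
    (((q.coeff.support ×ˢ q.coeff.support).filter (fun p => p.1 ≠ p.2)).image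
      (fun p => ((p.1 - p.2 : Ker a) : I → ℤ))) (by
    intro h0
    obtain ⟨p, hp, h1⟩ := Finset.mem_image.1 h0
    exact (Finset.mem_filter.1 hp).2 (sub_eq_zero.1 (Subtype.ext h1)))
  have hne : q.coeff.support.Nonempty := by
    rw [Finsupp.support_nonempty_iff]
    intro h
    exact hq (AddMonoidAlgebra.coeff_injective h)
  obtain ⟨e0, he0, hmin⟩ := Finset.exists_min_image q.coeff.support
    (fun g : Ker a => ∑ i, (φ i : ℤ) * (g : I → ℤ) i) hne
  set S1 : Finset (Ker a) := q.coeff.support ∪ SH with hS1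
  set S2 : Finset (Ker a) := Dd.biUnion SQ with hS2
  set r : (I → ℤ) → ℚ := fun κ => if h : κ ∈ Ker a then q.coeff (e0 - ⟨κ, h⟩) else 0 with hr
  set G : (I → ℤ) → MvPolynomial I ℚ := fun κ => if h : κ ∈ Ker a then H' (e0 - ⟨κ, h⟩) else 0
    with hG
  have hr' : ∀ g : Ker a, r ((e0 - g : Ker a) : I → ℤ) = q.coeff g := by
    intro g
    have h1 : r ((e0 - g : Ker a) : I → ℤ) = q.coeff (e0 - (e0 - g)) := dif_pos (e0 - g).2
    rw [h1, sub_sub_cancel]
  have hG' : ∀ g : Ker a, G ((e0 - g : Ker a) : I → ℤ) = H' g := by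
    intro g
    have h1 : G ((e0 - g : Ker a) : I → ℤ) = H' (e0 - (e0 - g)) := dif_pos (e0 - g).2
    rw [h1, sub_sub_cancel]
  set Dk : Finset (I → ℤ) := S1.image (fun g => ((e0 - g : Ker a) : I → ℤ)) with hDk
  set pairs : Finset ((I → ℤ) × Ker a) := Dd ×ˢ S2 with hpairs
  set f : (I → ℤ) × Ker a → (I → ℤ) := fun p => p.1 + ((e0 - p.2 : Ker a) : I → ℤ) with hf
  set q' : (I → ℤ) → MvPolynomial I ℚ := fun δ' =>
    ∑ p ∈ pairs.filter (fun p => f p = δ'), Q' p.1 p.2 with hq'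
  have hrk : ∀ κ ∈ Dk, κ ≠ 0 → r κ ≠ 0 → ∑ i, (φ i : ℤ) * κ i < 0 ∧
      ((∃ j, j ∉ V ∧ κ j < 0) ∨ ∀ j, j ∉ V → κ j = 0) := by
    intro κ hκ hκ0 hrκ
    obtain ⟨g, -, rfl⟩ := Finset.mem_image.1 hκ
    rw [hr'] at hrκ
    have hg : g ∈ q.coeff.support := Finsupp.mem_support_iff.2 hrκ
    have hne : e0 ≠ g := fun h => hκ0 (by rw [h, sub_self]; rfl)
    have h1 := hmin g hg
    have h2 := φE _ (Finset.mem_image.2 ⟨(e0, g), Finset.mem_filter.2
      ⟨Finset.mem_product.2 ⟨he0, hg⟩, hne⟩, rfl⟩)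
    have h3 : ∑ i, (φ i : ℤ) * ((e0 - g : Ker a) : I → ℤ) i =
        ∑ i, (φ i : ℤ) * (e0 : I → ℤ) i - ∑ i, (φ i : ℤ) * (g : I → ℤ) i := by
      rw [← Finset.sum_sub_distrib]
      exact Finset.sum_congr rfl fun i _ => mul_sub _ _ _
    have h4 : ∑ i, (φ i : ℤ) * ((e0 - g : Ker a) : I → ℤ) i ≠ 0 := h2
    rw [h3] at h4
    have h5 : ∑ i, (φ i : ℤ) * (e0 : I → ℤ) i ≤ ∑ i, (φ i : ℤ) * (g : I → ℤ) i := h1
    have h6 : ∑ i, (φ i : ℤ) * ((e0 - g : Ker a) : I → ℤ) i < 0 := by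
      rw [h3]
      omega
    refine ⟨h6, ?_⟩
    by_contra hno
    push Not at hno
    obtain ⟨hn1, hn2⟩ := hno
    have h7 := φV _ (Finset.mem_image.2 ⟨(e0, g), Finset.mem_filter.2
      ⟨Finset.mem_product.2 ⟨he0, hg⟩, hne⟩, rfl⟩) hn1 hn2
    exact absurd h7 (not_lt.2 (le_of_lt h6))
  refine ⟨{ φ := φ, φ0 := fun i hi => absurd hi (Finset.notMem_empty i), φ1 := fun i _ => φ1 i, Dk := Dk, hDk := ?_, r := r, G := G, zm := ?_, r0 := ?_,
            hr := fun κ h1 h2 h3 => (hrk κ h1 h2 h3).1, Dd := pairs.image f, hDd := ?_, q := q', rc := ?_ }, fun κ h1 h2 h3 => (hrk κ h1 h2 h3).2⟩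
  · intro κ hκ
    obtain ⟨g, -, rfl⟩ := Finset.mem_image.1 hκ
    exact (e0 - g).2
  · refine Finset.mem_image.2 ⟨e0, Finset.mem_union_left _ he0, ?_⟩
    rw [sub_self]
    rfl
  · have h1 := hr' e0
    rw [sub_self] at h1
    have h2 : r 0 = q.coeff e0 := h1
    rw [h2]
    exact Finsupp.mem_support_iff.1 he0
  · intro δ' hδ'
    obtain ⟨p, hp, rfl⟩ := Finset.mem_image.1 hδ'
    have h1 := hDd p.1 (Finset.mem_product.1 hp).1
    have h2 : ∑ i, ((e0 - p.2 : Ker a) : I → ℤ) i = 0 := (e0 - p.2).2.1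
    show ∑ i, (p.1 + ((e0 - p.2 : Ker a) : I → ℤ)) i = 1
    simp only [Pi.add_apply, Finset.sum_add_distrib, h1, h2, add_zero]
  · intro t
    have h1 := DFunLike.congr_fun (congrArg AddMonoidAlgebra.coeff (hid t)) e0
    rw [REC_mul _ _ S1 (by
      intro g hg
      by_contra hno
      rw [hS1, Finset.mem_union, not_or] at hno
      refine Finsupp.mem_support_iff.1 hg ?_
      rw [AddMonoidAlgebra.coeff_add, Finsupp.add_apply, REC_alg, hH' t g, hSH g hno.2,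
        Finsupp.notMem_support_iff.1 hno.1]
      simp)] at h1
    have hL : ∑ κ ∈ Dk, (r κ + ((∑ i, (t i : ℚ)) - α) ^ K * eval (fun i => (t i : ℚ)) (G κ)) *
        multi (fun i => (t i : ℤ) + κ i) = ∑ g ∈ S1, (q + algebraMap ℚ
          (AddMonoidAlgebra ℚ (Ker a)) (((∑ i, (t i : ℚ)) - α) ^ K) * eval (fun i => ((t i : ℕ) :
            AddMonoidAlgebra ℚ (Ker a))) H).coeff g * (Eg a fun i => (t i : ℤ)).coeff (e0 - g) := by
      rw [hDk, Finset.sum_image (fun g _ g' _ h => by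
        have h2 : (e0 - g : Ker a) = e0 - g' := Subtype.ext h
        exact sub_right_injective h2)]
      refine Finset.sum_congr rfl fun g _ => ?_
      rw [hr', hG', REC_Eg, AddMonoidAlgebra.coeff_add, Finsupp.add_apply, REC_alg, hH' t g]
      rfl
    rw [hL, h1, AddMonoidAlgebra.coeff_sum, Finsupp.finsetSum_apply]
    have hRr : ∀ δ ∈ Dd, (algebraMap ℚ (AddMonoidAlgebra ℚ (Ker a)) (eval (fun i => (t i : ℚ))
        (dd a δ)) * eval (fun i => ((t i : ℕ) : AddMonoidAlgebra ℚ (Ker a))) (Q δ) *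
          Eg a (fun i => (t i : ℤ) + δ i)).coeff e0 = ∑ g ∈ S2,
        eval (fun i => (t i : ℚ)) (dd a δ) * eval (fun i => (t i : ℚ)) (Q' δ g) *
          multi (fun i => (t i : ℤ) + f (δ, g) i) := by
      intro δ hδ
      rw [REC_mul _ _ S2 (by
        intro g hg
        by_contra hno
        refine Finsupp.mem_support_iff.1 hg ?_
        rw [REC_alg, hQ' δ t g, hSQ δ g (fun h => hno (Finset.mem_biUnion.2 ⟨δ, hδ, h⟩))]
        simp)]
      refine Finset.sum_congr rfl fun g _ => ?_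
      rw [REC_alg, hQ' δ t g, REC_Eg]
      congr 2
      funext i
      simp only [Pi.add_apply, hf]
      ring
    rw [Finset.sum_congr rfl hRr, ← Finset.sum_product (s := Dd) (t := S2) (f := fun p =>
      eval (fun i => (t i : ℚ)) (dd a p.1) * eval (fun i => (t i : ℚ)) (Q' p.1 p.2) *
          multi (fun i => (t i : ℤ) + f (p.1, p.2) i)),
      ← Finset.sum_fiberwise_of_maps_to (s := pairs) (t := pairs.image f) (g := f)
        (fun p hp => Finset.mem_image_of_mem f hp)]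
    refine Finset.sum_congr rfl fun δ' _ => ?_
    rw [hq', map_mul, map_sum, Finset.mul_sum, Finset.sum_mul]
    refine Finset.sum_congr rfl fun p hp => ?_
    obtain ⟨-, rfl⟩ := Finset.mem_filter.1 hp
    have h6 : dd a (f p) = dd a p.1 := REC_dd a p.1 (e0 - p.2)
    rw [h6]

end Pool.Newt5
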