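import Pool.Agent.H39.Newt5.Stmts
import Pool.Agent.H39.Newt4.ZTB

/-!
# Project NEWTON5, module ZTB: removal of the poles in a set
-/

set_option autoImplicit false

namespace Pool.Newt5

open MvPolynomial Pool.Agent.H39.MonoR Pool.Agent.H75.Mono Pool.Newt Pool.Newt2 Pool.Newt3
open Pool.Newt4 (Nfc)

namespace ZTB33

open Pool.Newt2.ZtwAux Pool.Newt4.ZtbAux

variable {σ I : Type} [Fintype σ] [Fintype I]

open Classical in
theorem key (hPsi : SPsi) (hPsb : SPsb) (hInb : SInb) [Nonempty I] [Nonempty σ] (a : I → σ → ℕ)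
    (B : Set ℚ) (hB : HypB a B) :
    ∃ R : Finset (σ → ℕ), (∀ w ∈ R, Rigid a w ∧ 0 < Nw a w ∧
      -((∑ j, w j : ℕ) : ℚ) / (Nw a w : ℚ) ∉ B) ∧
      ∀ D : Finset I → ℤ, Inv2 a D → ∀ Φ : PowerSeries (LaurentPolynomial ℤ),
      ((D ∅ = 0 ∧ Φ = Psi a D) ∨ (D ∅ = 1 ∧ Φ = (1 - PowerSeries.X) * Psi a D - QQ a)) →
      ∃ (W' : Multiset (ℕ × ℕ)) (N0 : ℕ), (∀ p ∈ W', ∃ w ∈ R, p = (∑ j, w j, Nw a w)) ∧
        ∀ N, N0 ≤ N → PowerSeries.coeff N (dP W' * Φ) = 0 := by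
  obtain ⟨W, N0, hW, hW0⟩ := hPsi σ I a ∅ (fun _ => Classical.arbitrary σ)
    (fun i hi => absurd hi (Finset.notMem_empty i))
  refine ⟨W.toFinset.filter fun w => -((∑ j, w j : ℕ) : ℚ) / (Nw a w : ℚ) ∉ B, fun w hw => ?_,
    fun D hD Φ hΦ => ?_⟩
  · obtain ⟨h1, h2⟩ := Finset.mem_filter.1 hw
    obtain ⟨h3, h4, -⟩ := hW w (Multiset.mem_toFinset.1 h1)
    exact ⟨h3, h4, h2⟩
  · have hreg : ∀ w ∈ W, -((∑ j, w j : ℕ) : ℚ) / (Nw a w : ℚ) ∈ B → ∀ x : ℝˣ, 1 < (x : ℝ) →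
        RegC ((x : ℝ) ^ (((∑ j, w j : ℕ) : ℝ) / ((Nw a w : ℕ) : ℝ)))
          (PowerSeries.map (Complex.ofRealHom.comp (ev x)) Φ) := by
      intro w hw hwB x hx
      have hN : (0 : ℚ) < (Nw a w : ℚ) := Nat.cast_pos.2 (hW w hw).2.1
      rcases hB _ hwB with ⟨hS, hL⟩ | ⟨Y, l, hl, hLab⟩
      · have he : (((∑ j, w j : ℕ) : ℝ) / ((Nw a w : ℕ) : ℝ)) =
            -((-((∑ j, w j : ℕ) : ℚ) / (Nw a w : ℚ) : ℚ) : ℝ) := by
          rw [Rat.cast_div, Rat.cast_neg, Rat.cast_natCast, Rat.cast_natCast, neg_div, neg_neg]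
        rw [he]
        have h1 := hPsb σ I a _ hL hS x hx D hD
        rcases hΦ with ⟨h0, rfl⟩ | ⟨h0, rfl⟩
        · exact h1.1 h0
        · exact h1.2 h0
      · obtain ⟨Ww, Mw, h3, h4⟩ := hPsi σ I a Y l hl
        refine regC_of_dW a x hx Ww Mw Φ (fun w' hw' he => ?_) (fun N hN => ?_)
        · obtain ⟨hr, hN', hl'⟩ := h3 w' hw'
          refine hl' (hLab w' hr hN' ?_)
          have h5 : ((((∑ j, w j : ℕ) : ℚ) / (Nw a w : ℚ) * (Nw a w' : ℚ) : ℚ) : ℝ) =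
              (((∑ j, w' j : ℕ) : ℚ) : ℝ) := by
            rw [Rat.cast_mul, Rat.cast_div, Rat.cast_natCast, Rat.cast_natCast, Rat.cast_natCast,
              Rat.cast_natCast]
            exact he
          have h6 := Rat.cast_injective h5
          rw [neg_div, neg_neg]
          exact h6.symm
        · have h5 := h4 x hx D hD N hN
          rcases hΦ with ⟨h0, rfl⟩ | ⟨h0, rfl⟩
          · exact h5.1 h0
          · exact h5.2 h0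
    have h1 := hInb Φ (prs a W) N0 {p | -(p.1 : ℚ) / (p.2 : ℚ) ∈ B} (by
      intro p hp
      obtain ⟨w, hw, rfl⟩ := Multiset.mem_map.1 hp
      exact (hW w hw).2.1) (by
      intro x hx N hN
      rw [map_mul, ← dW_eq]
      rcases hΦ with ⟨h0, rfl⟩ | ⟨h0, rfl⟩
      · exact (hW0 x hx D hD N hN).1 h0
      · exact (hW0 x hx D hD N hN).2 h0) (by
      intro p hp hpB x hx
      obtain ⟨w, hw, rfl⟩ := Multiset.mem_map.1 hp
      exact hreg w hw hpB x hx)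
    refine ⟨_, N0, fun p hp => ?_, h1⟩
    obtain ⟨h2, h3⟩ := Multiset.mem_filter.1 hp
    obtain ⟨w, hw, rfl⟩ := Multiset.mem_map.1 h2
    exact ⟨w, Finset.mem_filter.2 ⟨Multiset.mem_toFinset.2 hw, h3⟩, rfl⟩


theorem erase_eq {J : Type} (d1 d2 : DecidableEq J) (τ : Finset J) (i : J) :
    @Finset.erase J d1 τ i = @Finset.erase J d2 τ i := by
  rw [Subsingleton.elim d1 d2]

end ZTB33

open ZTB33 Pool.Newt2.ZtwAux Pool.Newt4.ZtbAux in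
/-- ZTB5 -/
theorem sZtb (hZfv : SZfv) (hMba : SMba) (hPsi : SPsi) (hPsb : SPsb) (hInb : SInb)
    (hMem : SMem) (hRgd : SRgd) : SZtb := by
  intro k _ _ σ I _ _ _ a c hc hn hinj V hV B hB
  obtain ⟨hne, hrgd⟩ := hRgd σ I a V hV
  have : Nonempty V := hne
  have hR : ∃ R : Finset (σ → ℕ), (∀ w ∈ R, Rigid (rst a V) w ∧ 0 < Nw (rst a V) w ∧
      -((∑ j, w j : ℕ) : ℚ) / (Nw (rst a V) w : ℚ) ∉ B) ∧
      ∀ D : Finset V → ℤ, Inv2 (rst a V) D → ∀ Φ : PowerSeries (LaurentPolynomial ℤ),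
      ((D ∅ = 0 ∧ Φ = Psi (rst a V) D) ∨
        (D ∅ = 1 ∧ Φ = (1 - PowerSeries.X) * Psi (rst a V) D - QQ (rst a V))) →
      ∃ (W' : Multiset (ℕ × ℕ)) (N0 : ℕ),
        (∀ p ∈ W', ∃ w ∈ R, p = (∑ j, w j, Nw (rst a V) w)) ∧
        ∀ N, N0 ≤ N → PowerSeries.coeff N (dP W' * Φ) = 0 := by
    rcases isEmpty_or_nonempty σ with he | he
    · refine ⟨∅, fun w hw => absurd hw (Finset.notMem_empty w), fun D _ Φ hΦ =>
        ⟨0, 0, fun p hp => absurd hp (Multiset.notMem_zero p), fun N _ => ?_⟩⟩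
      have h0 : Φ = 0 := by
        rcases hΦ with ⟨-, rfl⟩ | ⟨-, rfl⟩
        · exact Psi_zero (rst a V) D
        · rw [Psi_zero, QQ_zero, mul_zero, sub_zero]
      rw [h0, mul_zero, map_zero]
    · exact ZTB33.key hPsi hPsb hInb (rst a V) B hB
  obtain ⟨R, hR1, hR2⟩ := hR
  have hNw : ∀ w, Nw (rst a V) w = Nw a w := fun w => (hrgd w).1
  refine ⟨R, fun w hw => ?_, ?_⟩
  · obtain ⟨h1, h2, h3⟩ := hR1 w hw
    refine ⟨(hrgd w).2.2 h1, ?_, ?_⟩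
    · rw [← hNw w]
      exact h2
    · rw [← hNw w]
      exact h3
  set S : Set (ℤ × ℕ) := {((-1 : ℤ), (1 : ℕ))} ∪
    {p | ∃ w ∈ R, p = (-((∑ j, w j : ℕ) : ℤ), Nw a w)} with hS
  have hS0 : ∀ p ∈ S, 0 < p.2 := by
    rintro p (hp | ⟨w, hw, rfl⟩)
    · rw [Set.mem_singleton_iff.1 hp]
      exact Nat.one_pos
    · have h1 := (hR1 w hw).2.1
      rw [hNw w] at h1
      exact h1
  have hS1 : ((-1 : ℤ), (1 : ℕ)) ∈ S := Or.inl rfl
  have hmem : ∀ D : Finset V → ℤ, Inv2 (rst a V) D → ∀ Φ : PowerSeries (LaurentPolynomial ℤ),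
      ((D ∅ = 0 ∧ Φ = Psi (rst a V) D) ∨
        (D ∅ = 1 ∧ Φ = (1 - PowerSeries.X) * Psi (rst a V) D - QQ (rst a V))) →
      PowerSeries.map (ev (Lu k)) Φ ∈ RS k S := by
    intro D hD Φ hΦ
    obtain ⟨W', N0, h1, h2⟩ := hR2 D hD Φ hΦ
    refine hMem k S hS0 Φ W' N0 (fun p hp => ?_) h2
    obtain ⟨w, hw, rfl⟩ := h1 p hp
    refine Or.inr ⟨w, hw, ?_⟩
    rw [← hNw w]
  obtain ⟨C, hC1, hC2, hC3, Z0, hZ0, hZ⟩ := hZfv k σ I a c hc hn hinj V hV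
  rw [hZ]
  refine (RS k S).add_mem (rs_mono (k := k) (Set.singleton_subset_iff.2 hS1) hZ0)
    (hMba k σ V (rst a V) C (fun τ i l v hv =>
      Eq.trans (congrArg (fun x => C τ v + C x v) (ZTB33.erase_eq _ _ τ i)) (hC1 τ i l v hv))
      hC2 hC3 S hS1 (fun D hD h0 => hmem D hD _ (Or.inl ⟨h0, rfl⟩))
      (fun D hD h0 => hmem D hD _ (Or.inr ⟨h0, rfl⟩)))

end Pool.Newt5
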